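import Pool.Agent.P.MP_417dd2_co.Poly

/-!
The blocks of the reducible pattern and the polynomials they realise.
-/

open Polynomial

namespace Pool.Agent.P.MP_417dd2_co

/-- `p` is the characteristic polynomial of a real matrix with zero-nonzero pattern `Z`. -/
def Realizes {n : ℕ} (Z : Matrix (Fin n) (Fin n) Bool) (p : ℝ[X]) : Prop :=
  ∃ A : Matrix (Fin n) (Fin n) ℝ, (∀ i j, (A i j ≠ 0 ↔ Z i j = true)) ∧ A.charpoly = p

/-- Direct sum of two patterns. -/
def dsum {m n : ℕ} (Z : Matrix (Fin m) (Fin m) Bool) (W : Matrix (Fin n) (Fin n) Bool) :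
    Matrix (Fin (m + n)) (Fin (m + n)) Bool :=
  Matrix.reindex finSumFinEquiv finSumFinEquiv
    (Matrix.fromBlocks Z (Matrix.of fun _ _ => false) (Matrix.of fun _ _ => false) W)

lemma Realizes.dsum {m n : ℕ} {Z : Matrix (Fin m) (Fin m) Bool} {W : Matrix (Fin n) (Fin n) Bool}
    {p q : ℝ[X]} (hp : Realizes Z p) (hq : Realizes W q) : Realizes (dsum Z W) (p * q) := by
  obtain ⟨A, hA, rfl⟩ := hp
  obtain ⟨B, hB, rfl⟩ := hq
  refine ⟨Matrix.reindex finSumFinEquiv finSumFinEquiv (Matrix.fromBlocks A 0 0 B), ?_, ?_⟩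
  · intro i j
    obtain ⟨i, rfl⟩ := finSumFinEquiv.surjective i
    obtain ⟨j, rfl⟩ := finSumFinEquiv.surjective j
    simp only [Pool.Agent.P.MP_417dd2_co.dsum, Matrix.reindex_apply, Matrix.submatrix_apply,
      Equiv.symm_apply_apply]
    rcases i with i | i <;> rcases j with j | j <;> simp [hA, hB]
  · rw [Matrix.charpoly_reindex, Matrix.charpoly_fromBlocks_zero₁₂]

/-- The full 2 x 2 pattern. -/
def T2 : Matrix (Fin 2) (Fin 2) Bool := fun _ _ => true

/-- The irreducible 6 x 6 pattern with 11 nonzero entries. -/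
def S6 : Matrix (Fin 6) (Fin 6) Bool :=
  !![true, true, false, false, false, false;
     true, false, true, false, false, false;
     false, false, true, true, false, false;
     false, false, true, false, true, false;
     false, false, false, false, false, true;
     true, false, false, false, true, false]

lemma realizes_T2 (a b : ℝ) : Realizes T2 (quad a b) := by
  obtain ⟨t, ht0, ht1, ht2⟩ : ∃ t : ℝ, t ≠ 0 ∧ -a - t ≠ 0 ∧ t * (-a - t) - b ≠ 0 := by
    have h1 := le_abs_self a
    have h2 := neg_abs_le a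
    have h3 := neg_abs_le b
    have h4 := abs_nonneg a
    have h5 := abs_nonneg b
    refine ⟨|a| + |b| + 1, by positivity, by linarith, by nlinarith⟩
  refine ⟨!![t, 1; t * (-a - t) - b, -a - t], ?_, ?_⟩
  · intro i j
    fin_cases i <;> fin_cases j <;> simp [T2, ht0, ht1, ht2]
  · apply Polynomial.funext
    intro x
    rw [Matrix.eval_charpoly, Matrix.det_fin_two]
    simp
    ring

lemma realizes_S6 {a1 b1 a2 b2 a3 b3 : ℝ} (h : Good a1 b1 a2 b2 a3 b3) :
    Realizes S6 (quad a1 b1 * quad a2 b2 * quad a3 b3) := by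
  obtain ⟨a, b, c, d, s, f, h1, h2, h3, h4, h5, h6, h⟩ := h
  refine ⟨!![-a, 1, 0, 0, 0, 0;
             -b, 0, 1, 0, 0, 0;
             0, 0, -c, 1, 0, 0;
             0, 0, -d, 0, 1, 0;
             0, 0, 0, 0, 0, 1;
             f, 0, 0, 0, -s, 0], ?_, ?_⟩
  · intro i j
    fin_cases i <;> fin_cases j <;> simp [S6, h1, h2, h3, h4, h5, h6]
  · apply Polynomial.funext
    intro x
    have e : Matrix.scalar (Fin 6) x - !![-a, 1, 0, 0, 0, 0;
             -b, 0, 1, 0, 0, 0;
             0, 0, -c, 1, 0, 0;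
             0, 0, -d, 0, 1, 0;
             0, 0, 0, 0, 0, 1;
             f, 0, 0, 0, -s, 0] = !![x + a, -1, 0, 0, 0, 0;
             b, x, -1, 0, 0, 0;
             0, 0, x + c, -1, 0, 0;
             0, 0, d, x, -1, 0;
             0, 0, 0, 0, x, -1;
             -f, 0, 0, 0, s, x] := by
      ext i j
      fin_cases i <;> fin_cases j <;> simp
    rw [Matrix.eval_charpoly, e]
    simp only [eval_mul, eval_quad, h x]
    simp [Matrix.det_succ_row_zero, Fin.sum_univ_succ, Fin.succAbove]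
    ring

/-- The reducible 16 x 16 pattern with 31 nonzero entries. -/
def Z16 : Matrix (Fin (6 + 2 + 2 + 2 + 2 + 2)) (Fin (6 + 2 + 2 + 2 + 2 + 2)) Bool :=
  dsum (dsum (dsum (dsum (dsum S6 T2) T2) T2) T2) T2

lemma good_of_same {u v w : ℝ × ℝ} (hu : 0 < u.2 ∨ u.1 = 0) (hv : 0 < v.2 ∨ v.1 = 0)
    (hw : 0 < w.2 ∨ w.1 = 0) (huv : SignType.sign u.1 = SignType.sign v.1)
    (huw : SignType.sign u.1 = SignType.sign w.1) : Good u.1 u.2 v.1 v.2 w.1 w.2 := by
  rcases lt_trichotomy u.1 0 with h | h | h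
  · have h2 : v.1 < 0 := by rwa [sign_neg h, eq_comm, sign_eq_neg_one_iff] at huv
    have h3 : w.1 < 0 := by rwa [sign_neg h, eq_comm, sign_eq_neg_one_iff] at huw
    exact (good_pos (neg_pos.mpr h) (neg_pos.mpr h2) (neg_pos.mpr h3) (hu.resolve_right h.ne)
      (hv.resolve_right h2.ne) (hw.resolve_right h3.ne)).neg
  · have h2 : v.1 = 0 := by rwa [h, sign_zero, eq_comm, sign_eq_zero_iff] at huv
    have h3 : w.1 = 0 := by rwa [h, sign_zero, eq_comm, sign_eq_zero_iff] at huw
    rw [h, h2, h3]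
    exact good_even _ _ _
  · have h2 : 0 < v.1 := by rwa [sign_pos h, eq_comm, sign_eq_one_iff] at huv
    have h3 : 0 < w.1 := by rwa [sign_pos h, eq_comm, sign_eq_one_iff] at huw
    exact good_pos h h2 h3 (hu.resolve_right h.ne') (hv.resolve_right h2.ne')
      (hw.resolve_right h3.ne')

lemma exists_multiset (k : ℕ) : ∀ p : ℝ[X], p.Monic → p.natDegree = 2 * k + 2 →
    ∃ (M : Multiset (ℝ × ℝ)) (a b : ℝ), M.card = k ∧ (∀ u ∈ M, 0 < u.2 ∨ u.1 = 0) ∧
      p = (M.map fun u => quad u.1 u.2).prod * quad a b := by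
  induction k with
  | zero =>
    intro p hp h
    obtain ⟨a, b, rfl⟩ := eq_quad hp h
    exact ⟨0, a, b, rfl, by simp, by simp⟩
  | succ k ih =>
    intro p hp h
    obtain ⟨a, b, q, hab, hq, hqd, rfl⟩ :=
      exists_quad_mul (n := 2 * k + 2) hp (by omega) (by omega)
    obtain ⟨M, c, d, hM, hM', rfl⟩ := ih q hq hqd
    refine ⟨(a, b) ::ₘ M, c, d, by simp [hM], ?_, by simp [mul_assoc]⟩
    intro u hu
    rcases Multiset.mem_cons.mp hu with rfl | hu
    · exact hab
    · exact hM' u hu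

lemma exists_three (M : Multiset (ℝ × ℝ)) (hM : M.card = 7) :
    ∃ u v w : ℝ × ℝ, ∃ N : Multiset (ℝ × ℝ), M = {u, v, w} + N ∧
      SignType.sign u.1 = SignType.sign v.1 ∧ SignType.sign u.1 = SignType.sign w.1 := by
  classical
  obtain ⟨σ, hσ⟩ : ∃ σ : SignType, 3 ≤ (M.filter fun u => SignType.sign u.1 = σ).card := by
    have h : ∀ (g : ℝ × ℝ → SignType) (N : Multiset (ℝ × ℝ)),
        N.card = (N.filter fun u => g u = 0).card
        + (N.filter fun u => g u = -1).card + (N.filter fun u => g u = 1).card := by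
      intro g N
      induction N using Multiset.induction_on with
      | empty => simp
      | cons u N ih =>
        rcases hu : g u with _ | _ | _ <;> simp [hu, ih] <;> omega
    by_contra hcon
    push Not at hcon
    have h0 := hcon 0
    have h1 := hcon (-1)
    have h2 := hcon 1
    have := h (fun u => SignType.sign u.1) M
    omega
  obtain ⟨T, hT, hT3⟩ : ∃ T ≤ M.filter fun u => SignType.sign u.1 = σ, T.card = 3 := by
    generalize (M.filter fun u => SignType.sign u.1 = σ) = F at hσ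
    induction F using Quotient.inductionOn with
    | h l =>
      refine ⟨(l.take 3 : List (ℝ × ℝ)), ?_, ?_⟩
      · exact Multiset.coe_le.mpr (List.take_sublist 3 l).subperm
      · simpa using hσ
  obtain ⟨u, v, w, rfl⟩ := Multiset.card_eq_three.mp hT3
  obtain ⟨N, hN⟩ := Multiset.le_iff_exists_add.mp (hT.trans (Multiset.filter_le _ _))
  have hs : ∀ x ∈ ({u, v, w} : Multiset (ℝ × ℝ)), SignType.sign x.1 = σ := fun x hx =>
    (Multiset.mem_filter.mp (Multiset.mem_of_le hT hx)).2
  refine ⟨u, v, w, N, hN, ?_, ?_⟩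
  · rw [hs u (by simp), hs v (by simp)]
  · rw [hs u (by simp), hs w (by simp)]

theorem realizes_Z16 (p : ℝ[X]) (hp : p.Monic) (h : p.natDegree = 6 + 2 + 2 + 2 + 2 + 2) :
    Realizes Z16 p := by
  obtain ⟨M, a, b, hM, hM', rfl⟩ := exists_multiset 7 p hp h
  obtain ⟨u, v, w, N, rfl, huv, huw⟩ := exists_three M hM
  have hN : N.card = 4 := by simpa using hM
  obtain ⟨x, y, z, t, rfl⟩ := Multiset.card_eq_four.mp hN
  have hg := good_of_same (hM' u (by simp)) (hM' v (by simp)) (hM' w (by simp)) huv huw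
  have := (((((realizes_S6 hg).dsum (realizes_T2 x.1 x.2)).dsum (realizes_T2 y.1 y.2)).dsum
    (realizes_T2 z.1 z.2)).dsum (realizes_T2 t.1 t.2)).dsum (realizes_T2 a b)
  have e : (Multiset.map (fun u : ℝ × ℝ => quad u.1 u.2) ({u, v, w} + {x, y, z, t})).prod * quad a b
      = quad u.1 u.2 * quad v.1 v.2 * quad w.1 w.2 * quad x.1 x.2 * quad y.1 y.2 * quad z.1 z.2
        * quad t.1 t.2 * quad a b := by
    simp only [Multiset.insert_eq_cons, Multiset.map_add, Multiset.map_cons,
      Multiset.map_singleton, Multiset.prod_add, Multiset.prod_cons, Multiset.prod_singleton]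
    ring
  rw [e]
  exact this

lemma card_Z16 : (Finset.univ.filter (fun q : Fin (6 + 2 + 2 + 2 + 2 + 2) ×
    Fin (6 + 2 + 2 + 2 + 2 + 2) => Z16 q.1 q.2 = true)).card = 31 := by
  decide +kernel

lemma reducible_Z16 : ∃ T : Finset (Fin (6 + 2 + 2 + 2 + 2 + 2)), T.Nonempty ∧ T ≠ Finset.univ ∧
    ∀ i, i ∉ T → ∀ j, j ∈ T → Z16 i j = false := by
  have h : ∀ i j : Fin (6 + 2 + 2 + 2 + 2 + 2), ¬ i.val < 6 → j.val < 6 → Z16 i j = false := by
    decide +kernel
  refine ⟨Finset.univ.filter fun i => i.val < 6, by decide +kernel, by decide +kernel, ?_⟩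
  intro i hi j hj
  exact h i j (by simpa using hi) (by simpa using hj)

end Pool.Agent.P.MP_417dd2_co
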