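import Mathlib

/-!
Real polynomials: extracting quadratic factors, and the sextics realised by the 6 x 6 block.
-/

open Polynomial

namespace Pool.Agent.P.MP_417dd2_co

/-- The monic quadratic `X ^ 2 + a X + b`. -/
noncomputable def quad (a b : ℝ) : ℝ[X] := X ^ 2 + C a * X + C b

lemma quad_monic (a b : ℝ) : (quad a b).Monic := by
  unfold quad; monicity!

lemma quad_natDegree (a b : ℝ) : (quad a b).natDegree = 2 := by
  unfold quad; compute_degree!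

@[simp] lemma eval_quad (a b x : ℝ) : (quad a b).eval x = x ^ 2 + a * x + b := by
  simp [quad]

lemma eq_quad {p : ℝ[X]} (hp : p.Monic) (h2 : p.natDegree = 2) :
    ∃ a b, p = quad a b := by
  refine ⟨p.coeff 1, p.coeff 0, ?_⟩
  have h := hp.as_sum
  rw [h2] at h
  conv_lhs => rw [h]
  simp only [quad, Finset.sum_range_succ, Finset.range_zero, Finset.sum_empty]
  ring

lemma quad_or_root {p : ℝ[X]} (hp : p.Monic) (h1 : 0 < p.natDegree) :
    (∃ a b, 0 < b ∧ quad a b ∣ p) ∨ ∃ r q, q.Monic ∧ p = (X - C r) * q ∧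
      q.natDegree + 1 = p.natDegree := by
  have hdeg : p.degree ≠ 0 := by
    intro h
    have := natDegree_eq_of_degree_eq_some (n := 0) (by simpa using h)
    omega
  obtain ⟨z, hz⟩ := IsAlgClosed.exists_aeval_eq_zero ℂ p hdeg
  by_cases him : z.im = 0
  · right
    have hz' : z = algebraMap ℝ ℂ z.re := by
      apply Complex.ext <;> simp [him]
    have hr : p.IsRoot z.re := by
      rw [hz', aeval_algebraMap_apply_eq_algebraMap_eval] at hz
      simpa using hz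
    obtain ⟨q, hq⟩ := dvd_iff_isRoot.mpr hr
    have hqm : q.Monic := (monic_X_sub_C z.re).of_mul_monic_left (hq ▸ hp)
    refine ⟨z.re, q, hqm, hq, ?_⟩
    rw [hq, (monic_X_sub_C z.re).natDegree_mul hqm, natDegree_X_sub_C]
    ring
  · left
    have h := quadratic_dvd_of_aeval_eq_zero_im_ne_zero p hz him
    have hz0 : z ≠ 0 := fun h0 => him (by simp [h0])
    refine ⟨-(2 * z.re), ‖z‖ ^ 2, by positivity, ?_⟩
    have : quad (-(2 * z.re)) (‖z‖ ^ 2) = X ^ 2 - C (2 * z.re) * X + C (‖z‖ ^ 2) := by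
      simp only [quad, map_neg]; ring
    rw [this]; exact h

lemma pair_dvd (r s : ℝ) : quad (-(r + s)) (r * s) = (X - C r) * (X - C s) := by
  simp only [quad, map_neg, map_add, map_mul]; ring

lemma four_signs (a b c d : ℝ) :
    (0 < a * b ∨ -(a + b) = 0) ∨ (0 < a * c ∨ -(a + c) = 0) ∨ (0 < a * d ∨ -(a + d) = 0) ∨
    (0 < b * c ∨ -(b + c) = 0) ∨ (0 < b * d ∨ -(b + d) = 0) ∨ (0 < c * d ∨ -(c + d) = 0) := by
  rcases lt_trichotomy a 0 with h1 | h1 | h1 <;> rcases lt_trichotomy b 0 with h2 | h2 | h2 <;>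
  rcases lt_trichotomy c 0 with h3 | h3 | h3 <;> rcases lt_trichotomy d 0 with h4 | h4 | h4 <;>
  simp [mul_pos_iff, *]

/-- A monic real polynomial of degree at least four has a quadratic factor with positive constant
term or zero linear term. -/
lemma exists_quad_dvd {p : ℝ[X]} (hp : p.Monic) (h4 : 4 ≤ p.natDegree) :
    ∃ a b, (0 < b ∨ a = 0) ∧ quad a b ∣ p := by
  rcases quad_or_root hp (by omega) with ⟨a, b, hb, h⟩ | ⟨r1, q1, m1, e1, d1⟩
  · exact ⟨a, b, Or.inl hb, h⟩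
  rcases quad_or_root m1 (by omega) with ⟨a, b, hb, h⟩ | ⟨r2, q2, m2, e2, d2⟩
  · exact ⟨a, b, Or.inl hb, e1 ▸ h.mul_left _⟩
  rcases quad_or_root m2 (by omega) with ⟨a, b, hb, h⟩ | ⟨r3, q3, m3, e3, d3⟩
  · exact ⟨a, b, Or.inl hb, e1 ▸ e2 ▸ (h.mul_left _).mul_left _⟩
  rcases quad_or_root m3 (by omega) with ⟨a, b, hb, h⟩ | ⟨r4, q4, m4, e4, d4⟩
  · exact ⟨a, b, Or.inl hb, e1 ▸ e2 ▸ e3 ▸ ((h.mul_left _).mul_left _).mul_left _⟩
  have e : p = (X - C r1) * ((X - C r2) * ((X - C r3) * ((X - C r4) * q4))) := by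
    rw [e1, e2, e3, e4]
  rcases four_signs r1 r2 r3 r4 with h | h | h | h | h | h
  · exact ⟨_, _, h, (X - C r3) * (X - C r4) * q4, by rw [pair_dvd, e]; ring⟩
  · exact ⟨_, _, h, (X - C r2) * (X - C r4) * q4, by rw [pair_dvd, e]; ring⟩
  · exact ⟨_, _, h, (X - C r2) * (X - C r3) * q4, by rw [pair_dvd, e]; ring⟩
  · exact ⟨_, _, h, (X - C r1) * (X - C r4) * q4, by rw [pair_dvd, e]; ring⟩
  · exact ⟨_, _, h, (X - C r1) * (X - C r3) * q4, by rw [pair_dvd, e]; ring⟩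
  · exact ⟨_, _, h, (X - C r1) * (X - C r2) * q4, by rw [pair_dvd, e]; ring⟩

lemma exists_quad_mul {p : ℝ[X]} {n : ℕ} (hp : p.Monic) (h : p.natDegree = n + 2) (hn : 2 ≤ n) :
    ∃ a b q, (0 < b ∨ a = 0) ∧ q.Monic ∧ q.natDegree = n ∧ p = quad a b * q := by
  obtain ⟨a, b, hab, q, hq⟩ := exists_quad_dvd hp (by omega)
  have hqm : q.Monic := (quad_monic a b).of_mul_monic_left (hq ▸ hp)
  refine ⟨a, b, q, hab, hqm, ?_, hq⟩
  rw [hq, (quad_monic a b).natDegree_mul hqm, quad_natDegree] at h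
  omega

/-- Every monic real quartic is a product of two monic real quadratics. -/
lemma quartic (k1 k2 k3 k4 : ℝ) : ∃ a b c d : ℝ,
    a + c = k1 ∧ b + d + a * c = k2 ∧ a * d + b * c = k3 ∧ b * d = k4 := by
  have hm : (X ^ 4 + C k1 * X ^ 3 + C k2 * X ^ 2 + C k3 * X + C k4 : ℝ[X]).Monic := by monicity!
  have hd : (X ^ 4 + C k1 * X ^ 3 + C k2 * X ^ 2 + C k3 * X + C k4 : ℝ[X]).natDegree = 2 + 2 := by
    compute_degree!
  obtain ⟨a, b, q, -, hq, hq2, e⟩ := exists_quad_mul hm hd le_rfl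
  obtain ⟨c, d, rfl⟩ := eq_quad hq hq2
  have h0 := congrArg (eval 0) e
  have h1 := congrArg (eval 1) e
  have h2 := congrArg (eval (-1)) e
  have h3 := congrArg (eval 2) e
  simp only [eval_add, eval_mul, eval_pow, eval_C, eval_X, eval_quad] at h0 h1 h2 h3
  refine ⟨a, b, c, d, ?_, ?_, ?_, ?_⟩ <;> nlinarith

/-- The product of the three quadratics is the characteristic polynomial of the 6 x 6 block. -/
def Good (a1 b1 a2 b2 a3 b3 : ℝ) : Prop :=
  ∃ a b c d s f : ℝ, a ≠ 0 ∧ b ≠ 0 ∧ c ≠ 0 ∧ d ≠ 0 ∧ s ≠ 0 ∧ f ≠ 0 ∧ ∀ x : ℝ,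
    (x ^ 2 + a1 * x + b1) * (x ^ 2 + a2 * x + b2) * (x ^ 2 + a3 * x + b3) =
      (x ^ 2 + a * x + b) * (x ^ 2 + c * x + d) * (x ^ 2 + s) - f

lemma Good.swap12 {a1 b1 a2 b2 a3 b3 : ℝ} (h : Good a2 b2 a1 b1 a3 b3) :
    Good a1 b1 a2 b2 a3 b3 := by
  obtain ⟨a, b, c, d, s, f, h1, h2, h3, h4, h5, h6, h⟩ := h
  exact ⟨a, b, c, d, s, f, h1, h2, h3, h4, h5, h6, fun x => by rw [← h x]; ring⟩

lemma Good.swap23 {a1 b1 a2 b2 a3 b3 : ℝ} (h : Good a1 b1 a3 b3 a2 b2) :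
    Good a1 b1 a2 b2 a3 b3 := by
  obtain ⟨a, b, c, d, s, f, h1, h2, h3, h4, h5, h6, h⟩ := h
  exact ⟨a, b, c, d, s, f, h1, h2, h3, h4, h5, h6, fun x => by rw [← h x]; ring⟩

lemma Good.neg {a1 b1 a2 b2 a3 b3 : ℝ} (h : Good (-a1) b1 (-a2) b2 (-a3) b3) :
    Good a1 b1 a2 b2 a3 b3 := by
  obtain ⟨a, b, c, d, s, f, h1, h2, h3, h4, h5, h6, h⟩ := h
  refine ⟨-a, b, -c, d, s, f, neg_ne_zero.mpr h1, h2, neg_ne_zero.mpr h3, h4, h5, h6, fun x => ?_⟩
  linear_combination h (-x)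

lemma good_even (b1 b2 b3 : ℝ) : Good 0 b1 0 b2 0 b3 := by
  obtain ⟨c2, hc2⟩ : ∃ c2, c2 = b1 + b2 + b3 := ⟨_, rfl⟩
  obtain ⟨c4, hc4⟩ : ∃ c4, c4 = b1 * b2 + b1 * b3 + b2 * b3 := ⟨_, rfl⟩
  obtain ⟨c6, hc6⟩ : ∃ c6, c6 = b1 * b2 * b3 := ⟨_, rfl⟩
  obtain ⟨M, hM1, hM2, hM2', hM4, hM6⟩ : ∃ M : ℝ, 1 ≤ M ∧ c2 ≤ M ∧ -M ≤ c2 ∧ -M ≤ c4 ∧ c6 ≤ M := by
    refine ⟨|c2| + |c4| + |c6| + 1, ?_, ?_, ?_, ?_, ?_⟩ <;>
    linarith [abs_nonneg c2, abs_nonneg c4, abs_nonneg c6, le_abs_self c2, neg_abs_le c2,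
      neg_abs_le c4, le_abs_self c6]
  obtain ⟨a, b, c, d, e1, e2, e3, e4⟩ := quartic 0 (c2 - 2 * M) 0 (c4 - c2 * (2 * M) + (2 * M) ^ 2)
  have hk4 : M ≤ b * d := by nlinarith
  have hac : a * c ≠ 0 := by
    intro h0
    have h5 : c2 ^ 2 ≤ M ^ 2 := by nlinarith
    have h6 : b + d = c2 - 2 * M := by linarith
    have h7 : (b - d) ^ 2 = (c2 - 2 * M) ^ 2 - 4 * (c4 - c2 * (2 * M) + (2 * M) ^ 2) := by
      rw [← h6, ← e4]; ring
    nlinarith [sq_nonneg (b - d)]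
  have hbd : b * d ≠ 0 := by intro h0; linarith
  refine ⟨a, b, c, d, 2 * M, 2 * M * (b * d) - c6, left_ne_zero_of_mul hac, left_ne_zero_of_mul hbd,
    right_ne_zero_of_mul hac, right_ne_zero_of_mul hbd, by positivity, by nlinarith, fun x => ?_⟩
  subst hc2 hc4 hc6
  linear_combination (-(x ^ 3 * (x ^ 2 + 2 * M))) * e1 - (x ^ 2 * (x ^ 2 + 2 * M)) * e2
    - (x * (x ^ 2 + 2 * M)) * e3 - x ^ 2 * e4

lemma good_sorted {a1 b1 a2 b2 a3 b3 : ℝ} (h1 : 0 < a1) (h2 : 0 < a2) (h3 : 0 < a3)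
    (k1 : 0 < b1) (k12 : b1 ≤ b2) (k23 : b2 ≤ b3) : Good a1 b1 a2 b2 a3 b3 := by
  have k2 : 0 < b2 := by linarith
  have k3 : 0 < b3 := by linarith
  -- the odd part and the even part on the imaginary axis
  let G : ℝ → ℝ := fun s => a1 * (b2 - s) * (b3 - s) + a2 * (b1 - s) * (b3 - s)
    + a3 * (b1 - s) * (b2 - s) - s * (a1 * a2 * a3)
  let R : ℝ → ℝ := fun s => (b1 - s) * (b2 - s) * (b3 - s)
    - s * (a1 * a2 * (b3 - s) + a1 * a3 * (b2 - s) + a2 * a3 * (b1 - s))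
  have hG0 : 0 < G 0 := by simp only [G]; simp only [sub_zero, zero_mul]; positivity
  have hGb : G b2 < 0 := by
    have : G b2 = -(a2 * ((b2 - b1) * (b3 - b2)) + b2 * (a1 * a2 * a3)) := by simp only [G]; ring
    rw [this, neg_lt_zero]
    have : 0 ≤ (b2 - b1) * (b3 - b2) := mul_nonneg (by linarith) (by linarith)
    positivity
  have hRneg : ∀ s, 0 < s → s < b2 → G s = 0 → R s < 0 := by
    intro s hs hsb hG
    have id1 : G s * (b1 - s) - R s * a1 =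
        ((b1 - s) ^ 2 + a1 ^ 2 * s) * (a2 * (b3 - s) + a3 * (b2 - s)) := by
      simp only [G, R]; ring
    have u2 : 0 < b2 - s := by linarith
    have u3 : 0 < b3 - s := by linarith
    have : 0 < ((b1 - s) ^ 2 + a1 ^ 2 * s) * (a2 * (b3 - s) + a3 * (b2 - s)) := by positivity
    rw [hG] at id1
    by_contra hcon
    have := mul_nonneg (not_lt.mp hcon) h1.le
    linarith
  have hRpos : ∀ s, b2 < s → G s = 0 → 0 < R s := by
    intro s hsb hG
    have hs : 0 < s := by linarith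
    have id1 : G s * (b3 - s) - R s * a3 =
        -(((b3 - s) ^ 2 + a3 ^ 2 * s) * (a1 * (s - b2) + a2 * (s - b1))) := by
      simp only [G, R]; ring
    have u2 : 0 < s - b2 := by linarith
    have u1 : 0 < s - b1 := by linarith
    have : 0 < ((b3 - s) ^ 2 + a3 ^ 2 * s) * (a1 * (s - b2) + a2 * (s - b1)) := by positivity
    rw [hG] at id1
    by_contra hcon
    have := mul_nonneg (neg_nonneg.mpr (not_lt.mp hcon)) h3.le
    linarith
  obtain ⟨s, ⟨hs0, hsb⟩, hGs⟩ : ∃ s ∈ Set.Ioo (0 : ℝ) b2, G s = 0 := by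
    have hc : ContinuousOn G (Set.Icc 0 b2) := by simp only [G]; fun_prop
    exact intermediate_value_Ioo' k2.le hc ⟨hGb, hG0⟩
  have hRs := hRneg s hs0 hsb hGs
  obtain ⟨a, b, c, d, e1, e2, e3, e4⟩ := quartic (a1 + a2 + a3)
    (b1 + b2 + b3 + (a1 * a2 + a1 * a3 + a2 * a3) - s)
    (a1 * (b2 + b3) + a2 * (b1 + b3) + a3 * (b1 + b2) + a1 * a2 * a3 - (a1 + a2 + a3) * s)
    (b1 * b2 + b1 * b3 + b2 * b3 + (a1 * a2 * b3 + a1 * a3 * b2 + a2 * a3 * b1)
      - (b1 + b2 + b3 + (a1 * a2 + a1 * a3 + a2 * a3)) * s + s ^ 2)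
  have hbd : b * d ≠ 0 := by
    intro h0
    have : s * (b * d) = b1 * b2 * b3 - R s := by rw [e4]; simp only [R]; ring
    have h5 : 0 < b1 * b2 * b3 := by positivity
    rw [h0] at this
    linarith
  have key : ∀ b c d : ℝ, c = a1 + a2 + a3 →
      b + d = b1 + b2 + b3 + (a1 * a2 + a1 * a3 + a2 * a3) - s →
      b * c = a1 * (b2 + b3) + a2 * (b1 + b3) + a3 * (b1 + b2) + a1 * a2 * a3
        - (a1 + a2 + a3) * s →
      b * d = b1 * b2 + b1 * b3 + b2 * b3 + (a1 * a2 * b3 + a1 * a3 * b2 + a2 * a3 * b1)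
        - (b1 + b2 + b3 + (a1 * a2 + a1 * a3 + a2 * a3)) * s + s ^ 2 → False := by
    intro b c d f1 f2 f3 f4
    have hG : ∀ t, G t = c * ((t - s) * (t - b)) := by
      intro t
      have := hGs
      simp only [G] at this ⊢
      rw [f1] at f3 ⊢
      linear_combination this + (t - s) * f3
    have hc : 0 < c := by rw [f1]; positivity
    have hb : b2 < b := by
      by_contra hcon
      have h5 : 0 ≤ (b2 - s) * (b2 - b) := mul_nonneg (by linarith) (by linarith)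
      have := mul_nonneg hc.le h5
      rw [← hG] at this
      linarith
    have h6 := hRpos b hb (by rw [hG]; ring)
    have h7 : R b = R s := by
      simp only [R]
      linear_combination (b - s) * f4 - (b * (b - s)) * f2
    linarith
  have ha : a ≠ 0 := by
    rintro rfl
    exact key b c d (by linarith) (by linarith) (by linarith) e4
  have hc : c ≠ 0 := by
    rintro rfl
    exact key d a b (by linarith) (by linarith) (by linarith) (by linarith)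
  refine ⟨a, b, c, d, s, -R s, ha, left_ne_zero_of_mul hbd, hc, right_ne_zero_of_mul hbd, hs0.ne',
    by linarith, fun x => ?_⟩
  simp only [G, R] at hGs ⊢
  linear_combination (-(x ^ 3 * (x ^ 2 + s))) * e1 - (x ^ 2 * (x ^ 2 + s)) * e2
    - (x * (x ^ 2 + s)) * e3 - (x ^ 2 + s) * e4 + x * hGs

lemma good_pos {a1 b1 a2 b2 a3 b3 : ℝ} (h1 : 0 < a1) (h2 : 0 < a2) (h3 : 0 < a3)
    (k1 : 0 < b1) (k2 : 0 < b2) (k3 : 0 < b3) : Good a1 b1 a2 b2 a3 b3 := by
  rcases le_total b1 b2 with p12 | p12 <;> rcases le_total b2 b3 with p23 | p23 <;>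
    rcases le_total b1 b3 with p13 | p13
  · exact good_sorted h1 h2 h3 k1 p12 p23
  · exact good_sorted h1 h2 h3 k1 p12 p23
  · exact (good_sorted h1 h3 h2 k1 p13 p23).swap23
  · exact (good_sorted h3 h1 h2 k3 p13 p12).swap12.swap23
  · exact (good_sorted h2 h1 h3 k2 p12 p13).swap12
  · exact (good_sorted h2 h3 h1 k2 p23 p13).swap23.swap12
  · exact (good_sorted h3 h2 h1 k3 p23 p12).swap12.swap23.swap12
  · exact (good_sorted h3 h2 h1 k3 p23 p12).swap12.swap23.swap12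

end Pool.Agent.P.MP_417dd2_co
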